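import Pool.Agent.T9h94.Iso.Def

/-!
# The meaning of the sentence for the membership
-/

set_option autoImplicit false

namespace Pool.Agent.T9h94.Iso.Red

open Pool.Agent.NPC Pool.Agent.NPC.ER Pool.Agent.NPC.H612
open Pool.Agent.NPC.R537HD (asg semi numT sqT subT eval_numT eval_sqT eval_subT)

theorem m2_eval_congr (t : Tm) {v w : ℕ → ℝ} (h : ∀ i, Tok.var i ∈ t.toks → v i = w i) :
    t.eval v = t.eval w := by
  induction t with
  | var i => exact h i (by simp [Tm.toks])
  | zero => rfl
  | one => rfl
  | add s t h1 h2 =>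
    rw [Tm.eval, Tm.eval, h1 fun i hi => h i (by simp [Tm.toks, hi]),
      h2 fun i hi => h i (by simp [Tm.toks, hi])]
  | neg s h1 => rw [Tm.eval, Tm.eval, h1 fun i hi => h i (by simp [Tm.toks, hi])]
  | mul s t h1 h2 =>
    rw [Tm.eval, Tm.eval, h1 fun i hi => h i (by simp [Tm.toks, hi]),
      h2 fun i hi => h i (by simp [Tm.toks, hi])]

theorem m2_holds_congr (φ : Fm) {v w : ℕ → ℝ} (h : ∀ i, Tok.var i ∈ φ.toks → v i = w i) :
    φ.Holds v ↔ φ.Holds w := by
  induction φ with
  | eq s t =>
    rw [Fm.Holds, Fm.Holds, m2_eval_congr s fun i hi => h i (by simp [Fm.toks, hi]),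
      m2_eval_congr t fun i hi => h i (by simp [Fm.toks, hi])]
  | lt s t =>
    rw [Fm.Holds, Fm.Holds, m2_eval_congr s fun i hi => h i (by simp [Fm.toks, hi]),
      m2_eval_congr t fun i hi => h i (by simp [Fm.toks, hi])]
  | le s t =>
    rw [Fm.Holds, Fm.Holds, m2_eval_congr s fun i hi => h i (by simp [Fm.toks, hi]),
      m2_eval_congr t fun i hi => h i (by simp [Fm.toks, hi])]
  | not φ h1 => rw [Fm.Holds, Fm.Holds, h1 fun i hi => h i (by simp [Fm.toks, hi])]
  | and φ ψ h1 h2 =>
    rw [Fm.Holds, Fm.Holds, h1 fun i hi => h i (by simp [Fm.toks, hi]),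
      h2 fun i hi => h i (by simp [Fm.toks, hi])]
  | or φ ψ h1 h2 =>
    rw [Fm.Holds, Fm.Holds, h1 fun i hi => h i (by simp [Fm.toks, hi]),
      h2 fun i hi => h i (by simp [Fm.toks, hi])]

theorem okB_iff (I : IInst) : okB I = true ↔ InDim I.1.length I.2 := by
  unfold okB InDim
  rw [List.all_eq_true]
  constructor
  · intro h i hi
    have h1 : (!decide ((Tok.var i).code.1 = 0) || decide ((Tok.var i).code.2 < I.1.length)) =
      true := h _ hi
    have h2 : decide ((Tok.var i).code.2 < I.1.length) = true := by
      rcases Bool.or_eq_true_iff.1 h1 with h3 | h3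
      · exact absurd h3 (by simp [Tok.code])
      · exact h3
    exact of_decide_eq_true h2
  · intro h t ht
    cases t with
    | var i =>
      show (!decide ((Tok.var i).code.1 = 0) || decide ((Tok.var i).code.2 < I.1.length)) = true
      exact Bool.or_eq_true_iff.2 (Or.inr (decide_eq_true (h i ht)))
    | _ => simp [Tok.code]

theorem m2_dist {n : ℕ} (x y : EuclideanSpace ℝ (Fin n)) :
    dist x y ^ 2 = ∑ i ∈ Finset.range n, (asg x i - asg y i) ^ 2 := by
  rw [dist_eq_norm, EuclideanSpace.norm_sq_eq, ← Fin.sum_univ_eq_sum_range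
    (fun i => (asg x i - asg y i) ^ 2)]
  refine Finset.sum_congr rfl fun j _ => ?_
  rw [Real.norm_eq_abs, sq_abs]
  unfold asg
  rw [dif_pos j.2, dif_pos j.2]
  rfl

theorem m2_sum (n : ℕ) (f : ℕ → ℝ) :
    ((List.range n).map f).sum = ∑ i ∈ Finset.range n, f i := by
  induction n with
  | zero => simp
  | succ k ih => rw [List.range_succ, Finset.sum_range_succ, ← ih]; simp

theorem holds_mS (I : IInst) (v : ℕ → ℝ) : (mS I).Holds v ↔
    0 < v (I.1.length + I.1.length) ∧
    ((∀ i < I.1.length, v i = v (I.1.length + i)) → I.2.Holds v) ∧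
    (I.2.Holds v → ∑ i ∈ Finset.range I.1.length, (v i - v (I.1.length + i)) ^ 2 <
      v (I.1.length + I.1.length) ^ 2 → ∀ i < I.1.length, v i = v (I.1.length + i)) := by
  have h1 : (mEq I).Holds v ↔ ∀ i < I.1.length, v i = v (I.1.length + i) := by
    unfold mEq
    rw [holds_conj, List.forall_mem_map]
    simp only [List.mem_range, Fm.Holds, Tm.eval]
  have h2 : (mLt I).Holds v ↔ ∑ i ∈ Finset.range I.1.length, (v i - v (I.1.length + i)) ^ 2 <
      v (I.1.length + I.1.length) ^ 2 := by
    unfold mLt
    rw [Fm.Holds, eval_sumT, List.map_map, eval_sqT]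
    have : (Tm.eval v ∘ fun i => sqT (subT (Tm.var i) (Tm.var (I.1.length + i)))) =
        fun i => (v i - v (I.1.length + i)) ^ 2 := by
      funext i
      simp [Tm.eval]
    rw [this, m2_sum]
    rfl
  unfold mS
  simp only [Fm.Holds, h1, h2, Tm.eval]
  tauto

/-- (M2) The meaning of the sentence. -/
theorem stmtM2 : StmtM2 := by
  intro I
  by_cases hok : okB I = true
  swap
  · constructor
    · intro h
      exact absurd ((okB_iff I).2 h.1) hok
    · rintro ⟨x, h⟩
      have h1 := h x
      rw [mF, if_neg hok] at h1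
      exact absurd h1 (lt_irrefl _)
  · have hd := (okB_iff I).1 hok
    unfold IPE
    rw [mF, if_pos hok, and_iff_right hd]
    set n := I.1.length with hn
    have hE : ∀ i, i ∈ mE I ↔ n ≤ i ∧ i ≤ n + n := by
      intro i
      unfold mE
      simp only [List.mem_map, List.mem_range]
      constructor
      · rintro ⟨j, hj, h⟩; omega
      · rintro ⟨h1, h2⟩; exact ⟨i - n, by omega, by omega⟩
    have hmL : ∀ (x y : ℕ → ℝ) (i : ℕ), i < n → mixv (mE I) x y i = y i := by
      intro x y i hi
      unfold mixv
      rw [if_neg fun h => by have := (hE i).1 h; omega]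
    have hmR : ∀ (x y : ℕ → ℝ) (i : ℕ), n ≤ i → i ≤ n + n → mixv (mE I) x y i = x i := by
      intro x y i h1 h2
      unfold mixv
      rw [if_pos ((hE i).2 ⟨h1, h2⟩)]
    have key : EAR (mE I, mS I) ↔ ∃ x : ℕ → ℝ, ∀ y : ℕ → ℝ, 0 < x (n + n) ∧
        ((∀ i < n, y i = x (n + i)) → I.2.Holds y) ∧
        (I.2.Holds y → ∑ i ∈ Finset.range n, (y i - x (n + i)) ^ 2 < x (n + n) ^ 2 →
          ∀ i < n, y i = x (n + i)) := by
      unfold EAR
      refine exists_congr fun x => forall_congr' fun y => ?_
      have e1 : I.2.Holds (mixv (mE I) x y) ↔ I.2.Holds y :=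
        m2_holds_congr _ fun i hi => hmL x y i (hd i hi)
      have e2 : (∀ i < n, mixv (mE I) x y i = mixv (mE I) x y (n + i)) ↔
          ∀ i < n, y i = x (n + i) := by
        refine forall_congr' fun i => forall_congr' fun hi => ?_
        rw [hmL x y i hi, hmR x y (n + i) (by omega) (by omega)]
      have e3 : ∑ i ∈ Finset.range n, (mixv (mE I) x y i - mixv (mE I) x y (n + i)) ^ 2 =
          ∑ i ∈ Finset.range n, (y i - x (n + i)) ^ 2 := by
        refine Finset.sum_congr rfl fun i hi => ?_
        have hi' := Finset.mem_range.1 hi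
        rw [hmL x y i hi', hmR x y (n + i) (by omega) (by omega)]
      rw [holds_mS, ← hn, e1, e2, e3, hmR x y (n + n) (by omega) le_rfl]
    rw [key]
    constructor
    · rintro ⟨x, hx, ε, hε, h⟩
      refine ⟨fun i => if i = n + n then ε else asg x (i - n), fun y => ?_⟩
      have ex : ∀ i < n, (fun i => if i = n + n then ε else asg x (i - n)) (n + i) = asg x i := by
        intro i hi
        show (if n + i = n + n then ε else asg x (n + i - n)) = asg x i
        rw [if_neg (by omega), Nat.add_sub_cancel_left]
      have eε : (fun i => if i = n + n then ε else asg x (i - n)) (n + n) = ε := if_pos rfl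
      have e3 : ∑ i ∈ Finset.range n,
          (y i - (fun i => if i = n + n then ε else asg x (i - n)) (n + i)) ^ 2 =
          dist (toP n y) x ^ 2 := by
        rw [m2_dist]
        refine Finset.sum_congr rfl fun i hi => ?_
        have hi' := Finset.mem_range.1 hi
        rw [ex i hi']
        unfold asg toP
        rw [dif_pos hi', dif_pos hi']
      rw [eε, e3]
      have ey : I.2.Holds y ↔ toP n y ∈ semi n I.2 := by
        show _ ↔ I.2.Holds (asg (toP n y))
        refine m2_holds_congr _ fun i hi => ?_
        unfold asg toP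
        rw [dif_pos (hd i hi)]
      refine ⟨hε, fun h1 => ?_, fun h1 h2 i hi => ?_⟩
      · rw [ey]
        have : toP n y = x := by
          ext i
          have := h1 i i.2
          rw [ex i i.2] at this
          unfold asg at this
          rw [dif_pos i.2] at this
          exact this
        rw [this]
        exact hx
      · rw [ex i hi]
        have h3 : toP n y = x := h _ (ey.1 h1) (lt_of_pow_lt_pow_left₀ 2 hε.le h2)
        rw [← h3]
        unfold asg toP
        rw [dif_pos hi]
    · rintro ⟨x, hx⟩
      refine ⟨toP n fun i => x (n + i), ?_, x (n + n), (hx x).1, fun y hy hdist => ?_⟩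
      · have h1 := (hx fun i => x (n + i)).2.1 fun i _ => rfl
        show I.2.Holds (asg (toP n fun i => x (n + i)))
        refine (m2_holds_congr _ fun i hi => ?_).1 h1
        unfold asg toP
        rw [dif_pos (hd i hi)]
      · have h1 := (hx (asg y)).2.2 hy
        have e3 : ∑ i ∈ Finset.range n, (asg y i - x (n + i)) ^ 2 =
            dist y (toP n fun i => x (n + i)) ^ 2 := by
          rw [m2_dist]
          refine Finset.sum_congr rfl fun i hi => ?_
          have hi' := Finset.mem_range.1 hi
          congr 2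
          unfold asg toP
          rw [dif_pos hi']
        rw [e3] at h1
        have h2 := h1 (pow_lt_pow_left₀ hdist dist_nonneg (by norm_num))
        ext i
        have h3 := h2 i i.2
        unfold asg at h3
        rw [dif_pos i.2] at h3
        exact h3

end Pool.Agent.T9h94.Iso.Red
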