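import Mathlib

/-! Fritz John conditions, Hermite interpolation, separating directions. -/

set_option autoImplicit false

open Filter Topology

namespace Pool.Agent.T9h94.Iso

/-- The convex hull of a compact set is compact (finite dimension). -/
theorem isCompact_convexHull_pi {n : ℕ} {G : Set (Fin n → ℝ)} (hG : IsCompact G) :
    IsCompact (convexHull ℝ G) := by
  rcases G.eq_empty_or_nonempty with rfl | ⟨g0, hg0⟩
  · rw [convexHull_empty]; exact isCompact_empty
  have key : convexHull ℝ G = (fun p : (Fin (n + 1) → ℝ) × (Fin (n + 1) → (Fin n → ℝ)) =>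
      ∑ i, p.1 i • p.2 i) '' (stdSimplex ℝ (Fin (n + 1)) ×ˢ Set.pi Set.univ (fun _ => G)) := by
    apply Set.Subset.antisymm
    · intro x hx
      obtain ⟨ι, _, z, w, hz, hind, hw, hsum, hx⟩ := eq_pos_convex_span_of_mem_convexHull hx
      have hcard : Fintype.card ι ≤ n + 1 := by
        refine hind.card_le_finrank_succ.trans ?_
        have := Submodule.finrank_le (vectorSpan ℝ (Set.range z))
        rw [Module.finrank_fin_fun] at this
        omega
      obtain ⟨f⟩ : Nonempty (ι ↪ Fin (n + 1)) := by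
        apply Function.Embedding.nonempty_of_card_le
        rw [Fintype.card_fin]; exact hcard
      refine ⟨(Function.extend f w 0, Function.extend f z fun _ => g0), ⟨⟨?_, ?_⟩, ?_⟩, ?_⟩
      · intro k
        change 0 ≤ Function.extend f w 0 k
        by_cases hk : ∃ i, f i = k
        · obtain ⟨i, rfl⟩ := hk
          rw [f.injective.extend_apply]; exact (hw i).le
        · rw [Function.extend_apply' _ _ _ hk]; exact le_rfl
      · change ∑ k, Function.extend f w 0 k = 1
        rw [← hsum]
        symm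
        apply Fintype.sum_of_injective f f.injective
        · intro k hk
          rw [Function.extend_apply' _ _ _ hk]; rfl
        · intro i
          rw [f.injective.extend_apply]
      · intro k _
        change Function.extend f z (fun _ => g0) k ∈ G
        by_cases hk : ∃ i, f i = k
        · obtain ⟨i, rfl⟩ := hk
          rw [f.injective.extend_apply]; exact hz ⟨i, rfl⟩
        · rw [Function.extend_apply' _ _ _ hk]; exact hg0
      · change ∑ k, Function.extend f w 0 k • Function.extend f z (fun _ => g0) k = x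
        rw [← hx]
        symm
        apply Fintype.sum_of_injective f f.injective
        · intro k hk
          rw [Function.extend_apply' _ _ _ hk]; simp
        · intro i
          rw [f.injective.extend_apply, f.injective.extend_apply]
    · rintro _ ⟨⟨w, z⟩, ⟨⟨hw0, hw1⟩, hz⟩, rfl⟩
      exact (convex_convexHull ℝ G).sum_mem (fun i _ => hw0 i) hw1
        fun i _ => subset_convexHull ℝ G (hz i trivial)
  rw [key]
  apply ((isCompact_stdSimplex ℝ (Fin (n + 1))).prod (isCompact_univ_pi fun _ => hG)).image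
  fun_prop

/-- (B) First order conditions for a maximum of a minimum (Danskin, separation, Caratheodory). -/
theorem fritz_john {n q : ℕ} (F : (Fin n → ℝ) → (Fin q → ℝ) → ℝ)
    (dF : (Fin n → ℝ) → (Fin q → ℝ) → Fin n → ℝ)
    (hF : Continuous fun p : (Fin n → ℝ) × (Fin q → ℝ) => F p.1 p.2)
    (hdF : ∀ b, Continuous fun p : (Fin n → ℝ) × (Fin q → ℝ) => dF p.1 p.2 b)
    (hd : ∀ X y (u : Fin n → ℝ) (t : ℝ),
      HasDerivAt (fun t => F (X + t • u) y) (∑ b, dF (X + t • u) y b * u b) t)
    (K : Set (Fin q → ℝ)) (hK : IsCompact K) (X₀ : Fin n → ℝ) (v : ℝ)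
    (h1 : ∀ y ∈ K, v ≤ F X₀ y) (h2 : ∀ᶠ X in 𝓝 X₀, ∃ y ∈ K, F X y ≤ v) :
    ∃ (j : ℕ) (y : Fin (j + 1) → Fin q → ℝ) (c : Fin (j + 1) → ℝ), j ≤ n ∧
      Function.Injective y ∧ (∀ i, y i ∈ K ∧ F X₀ (y i) = v) ∧ (∀ i, 0 < c i) ∧
      ∑ i, c i = 1 ∧ ∀ b, ∑ i, c i * dF X₀ (y i) b = 0 := by
  have hF0 : Continuous fun y => F X₀ y :=
    hF.comp (continuous_const.prodMk continuous_id)
  have hdF0 : Continuous fun y => dF X₀ y :=
    continuous_pi fun b => (hdF b).comp (continuous_const.prodMk continuous_id)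
  set K0 : Set (Fin q → ℝ) := {y ∈ K | F X₀ y = v} with hK0
  have hK0c : IsCompact K0 := hK.inter_right (isClosed_eq hF0 continuous_const)
  set G : Set (Fin n → ℝ) := (fun y => dF X₀ y) '' K0 with hGdef
  have hG : IsCompact G := hK0c.image hdF0
  have hmem : (0 : Fin n → ℝ) ∈ convexHull ℝ G := by
    by_contra hne
    obtain ⟨f, u, hu0, hu⟩ := geometric_hahn_banach_point_closed (convex_convexHull ℝ G)
      (isCompact_convexHull_pi hG).isClosed hne
    rw [map_zero] at hu0
    set U : Fin n → ℝ := fun b => f (Pi.single b 1) with hU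
    have hf : ∀ g : Fin n → ℝ, f g = ∑ b, g b * U b := by
      intro g
      conv_lhs => rw [← Finset.univ_sum_single g]
      rw [map_sum]
      refine Finset.sum_congr rfl fun b _ => ?_
      rw [hU]
      have : Pi.single b (g b) = g b • (Pi.single b (1 : ℝ) : Fin n → ℝ) := by
        rw [← Pi.single_smul, smul_eq_mul, mul_one]
      rw [this, map_smul, smul_eq_mul]
    -- points near X₀ in the direction U
    have hcont : Continuous fun t : ℝ => X₀ + t • U := by fun_prop
    have htend : Tendsto (fun t : ℝ => X₀ + t • U) (𝓝 0) (𝓝 X₀) := by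
      have := hcont.tendsto 0
      simpa using this
    obtain ⟨ε, hε, hball⟩ := Metric.eventually_nhds_iff.1 (htend.eventually h2)
    set t : ℕ → ℝ := fun k => ε / (k + 2) with ht
    have htpos : ∀ k, 0 < t k := fun k => by rw [ht]; positivity
    have htlt : ∀ k, t k < ε := fun k => by
      rw [ht]
      simp only
      rw [div_lt_iff₀ (by positivity)]
      have : (0 : ℝ) ≤ k := Nat.cast_nonneg k
      nlinarith
    have htlim : Tendsto t atTop (𝓝 0) := by
      have h3 : Tendsto (fun k : ℕ => ((k : ℝ) + 2)) atTop atTop :=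
        tendsto_atTop_add_const_right _ _ tendsto_natCast_atTop_atTop
      exact h3.const_div_atTop ε
    have hex : ∀ k, ∃ y ∈ K, F (X₀ + t k • U) y ≤ v ∧ ∃ s, 0 < s ∧ s < t k ∧
        ∑ b, dF (X₀ + s • U) y b * U b ≤ 0 := by
      intro k
      obtain ⟨y, hy, hyv⟩ := hball (y := t k) (by
        rw [dist_zero_right, Real.norm_of_nonneg (htpos k).le]; exact htlt k)
      refine ⟨y, hy, hyv, ?_⟩
      have hdiff : ∀ s, HasDerivAt (fun t => F (X₀ + t • U) y)
          (∑ b, dF (X₀ + s • U) y b * U b) s := fun s => hd X₀ y U s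
      obtain ⟨s, hs, hs'⟩ := exists_hasDerivAt_eq_slope (fun t => F (X₀ + t • U) y)
        (fun s => ∑ b, dF (X₀ + s • U) y b * U b) (htpos k)
        (fun s _ => (hdiff s).continuousAt.continuousWithinAt) (fun s _ => hdiff s)
      refine ⟨s, hs.1, hs.2, ?_⟩
      rw [hs', sub_zero]
      apply div_nonpos_of_nonpos_of_nonneg _ (htpos k).le
      have h3 : F (X₀ + (0 : ℝ) • U) y = F X₀ y := by rw [zero_smul, add_zero]
      rw [h3]
      have := h1 y hy
      linarith
    choose y hyK hyv s hs0 hst hsle using hex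
    obtain ⟨ys, hysK, φ, hφ, hlim⟩ := hK.tendsto_subseq hyK
    have htφ : Tendsto (fun k => t (φ k)) atTop (𝓝 0) := htlim.comp hφ.tendsto_atTop
    have hsφ : Tendsto (fun k => s (φ k)) atTop (𝓝 0) :=
      squeeze_zero (fun k => (hs0 _).le) (fun k => (hst _).le) htφ
    have hA : Tendsto (fun k => F (X₀ + t (φ k) • U) (y (φ k))) atTop (𝓝 (F X₀ ys)) :=
      (hF.tendsto (X₀, ys)).comp ((htend.comp htφ).prodMk_nhds hlim)
    have hB : Tendsto (fun k => ∑ b, dF (X₀ + s (φ k) • U) (y (φ k)) b * U b) atTop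
        (𝓝 (∑ b, dF X₀ ys b * U b)) := by
      apply tendsto_finsetSum
      intro b _
      apply Tendsto.mul_const
      exact ((hdF b).tendsto (X₀, ys)).comp ((htend.comp hsφ).prodMk_nhds hlim)
    have hA' : F X₀ ys ≤ v := le_of_tendsto' hA fun k => hyv _
    have hB' : ∑ b, dF X₀ ys b * U b ≤ 0 := le_of_tendsto' hB fun k => hsle _
    have hys0 : ys ∈ K0 := ⟨hysK, le_antisymm hA' (h1 ys hysK)⟩
    have := hu _ (subset_convexHull ℝ G ⟨ys, hys0, rfl⟩)
    rw [hf] at this
    exact absurd (hu0.trans this) (not_lt.2 hB')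
  obtain ⟨ι, _, z, w, hz, hind, hw, hsum, hx⟩ := eq_pos_convex_span_of_mem_convexHull hmem
  have hcard : Fintype.card ι ≤ n + 1 := by
    refine hind.card_le_finrank_succ.trans ?_
    have := Submodule.finrank_le (vectorSpan ℝ (Set.range z))
    rw [Module.finrank_fin_fun] at this
    omega
  have hpos : 0 < Fintype.card ι := by
    rw [Fintype.card_pos_iff]
    by_contra hne
    rw [not_nonempty_iff] at hne
    rw [Finset.sum_of_isEmpty] at hsum
    exact zero_ne_one hsum
  obtain ⟨j, hj⟩ : ∃ j, Fintype.card ι = j + 1 := ⟨Fintype.card ι - 1, by omega⟩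
  let eq : Fin (j + 1) ≃ ι := (finCongr hj.symm).trans (Fintype.equivFin ι).symm
  have hpt : ∀ i, ∃ y ∈ K0, dF X₀ y = z i := fun i => hz ⟨i, rfl⟩
  choose y hy hyz using hpt
  refine ⟨j, fun i => y (eq i), fun i => w (eq i), by omega, ?_, fun i => ⟨(hy _).1, (hy _).2⟩,
    fun i => hw _, ?_, ?_⟩
  · intro a b hab
    apply eq.injective
    apply hind.injective
    rw [← hyz, ← hyz]
    simp only at hab
    rw [hab]
  · rw [← hsum]
    exact eq.sum_comp w
  · intro b
    have h3 := congrFun hx b
    rw [Finset.sum_apply, Pi.zero_apply] at h3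
    rw [← h3, ← eq.sum_comp]
    refine Finset.sum_congr rfl fun i _ => ?_
    rw [Pi.smul_apply, smul_eq_mul, ← hyz]

open Polynomial in
/-- The polynomial with the given coefficients. -/
noncomputable def ofCoeffs {m : ℕ} (p : Fin m → ℝ) : ℝ[X] :=
  ∑ d : Fin m, Polynomial.C (p d) * Polynomial.X ^ (d : ℕ)

theorem ofCoeffs_eval {m : ℕ} (p : Fin m → ℝ) (x : ℝ) :
    (ofCoeffs p).eval x = ∑ d, p d * x ^ (d : ℕ) := by
  simp [ofCoeffs, Polynomial.eval_finsetSum]

theorem ofCoeffs_derivative_eval {m : ℕ} (p : Fin m → ℝ) (x : ℝ) :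
    (Polynomial.derivative (ofCoeffs p)).eval x = ∑ d, p d * ((d : ℕ) * x ^ ((d : ℕ) - 1)) := by
  simp [ofCoeffs, Polynomial.eval_finsetSum, Polynomial.derivative_mul,
    Polynomial.derivative_X_pow]

theorem ofCoeffs_coeff {m : ℕ} (p : Fin m → ℝ) (d : Fin m) : (ofCoeffs p).coeff d = p d := by
  rw [ofCoeffs, Polynomial.finsetSum_coeff, Finset.sum_eq_single d]
  · simp
  · intro b _ hb
    rw [Polynomial.coeff_C_mul, Polynomial.coeff_X_pow, if_neg, mul_zero]
    intro h
    exact hb (Fin.ext h.symm)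
  · intro h; exact absurd (Finset.mem_univ _) h

theorem ofCoeffs_degree_lt {m : ℕ} (p : Fin m → ℝ) : (ofCoeffs p).degree < m := by
  rw [Polynomial.degree_lt_iff_coeff_zero]
  intro k hk
  rw [ofCoeffs, Polynomial.finsetSum_coeff]
  refine Finset.sum_eq_zero fun d _ => ?_
  rw [Polynomial.coeff_C_mul, Polynomial.coeff_X_pow, if_neg, mul_zero]
  have := d.2
  omega

/-- A polynomial of degree `< k j` divisible by `(X - z_i)^k` for `j` different `z_i` is zero. -/
theorem eq_zero_of_dvd {j k : ℕ} (z : Fin j → ℝ) (hz : Function.Injective z)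
    (P : Polynomial ℝ) (hP : P.degree < ((k * j : ℕ) : WithBot ℕ))
    (h : ∀ i, (Polynomial.X - Polynomial.C (z i)) ^ k ∣ P) : P = 0 := by
  have hdvd : ∏ i, (Polynomial.X - Polynomial.C (z i)) ^ k ∣ P := by
    apply Fintype.prod_dvd_of_coprime
    · intro a b hab
      exact (Polynomial.pairwise_coprime_X_sub_C hz hab).pow
    · exact h
  apply Polynomial.eq_zero_of_dvd_of_degree_lt hdvd
  rw [Polynomial.degree_prod]
  simp only [Polynomial.degree_pow, Polynomial.degree_X_sub_C, Finset.sum_const, Finset.card_univ,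
    Fintype.card_fin]
  refine hP.trans_le (le_of_eq ?_)
  rw [nsmul_eq_mul, nsmul_eq_mul, mul_one, mul_comm]
  push_cast
  ring

/-- (D1) Uniqueness of Hermite interpolation. -/
theorem hermite_inj (j q : ℕ) (z : Fin j → ℝ) (hz : Function.Injective z)
    (y : Fin j → Fin q → ℝ) (p0 : Fin (2 * j) → ℝ) (p : Fin q → Fin j → ℝ)
    (h0 : ∀ i, ∑ d, p0 d * z i ^ (d : ℕ) + ∑ a, ∑ d, p a d * (y i a * z i ^ (d : ℕ)) = 0)
    (h1 : ∀ i, ∑ d, p0 d * ((d : ℕ) * z i ^ ((d : ℕ) - 1)) +
      ∑ a, ∑ d, p a d * (y i a * ((d : ℕ) * z i ^ ((d : ℕ) - 1))) = 0)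
    (h2 : ∀ i a, ∑ d, p a d * z i ^ (d : ℕ) = 0) : (∀ d, p0 d = 0) ∧ ∀ a d, p a d = 0 := by
  have hp : ∀ a d, p a d = 0 := by
    intro a
    have hzero : ofCoeffs (p a) = 0 := by
      apply eq_zero_of_dvd (k := 1) z hz
      · rw [one_mul]; exact ofCoeffs_degree_lt _
      · intro i
        rw [pow_one, Polynomial.dvd_iff_isRoot, Polynomial.IsRoot.def, ofCoeffs_eval]
        exact h2 i a
    intro d
    rw [← ofCoeffs_coeff (p a) d, hzero, Polynomial.coeff_zero]
  refine ⟨?_, hp⟩
  have hzero : ofCoeffs p0 = 0 := by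
    by_contra hne
    apply hne
    apply eq_zero_of_dvd (k := 2) z hz
    · exact ofCoeffs_degree_lt _
    · intro i
      have h3 : 1 < (ofCoeffs p0).rootMultiplicity (z i) := by
        rw [Polynomial.one_lt_rootMultiplicity_iff_isRoot hne, Polynomial.IsRoot.def,
          Polynomial.IsRoot.def, ofCoeffs_eval, ofCoeffs_derivative_eval]
        constructor
        · have := h0 i
          simpa [hp] using this
        · have := h1 i
          simpa [hp] using this
      exact (pow_dvd_pow _ h3).trans (Polynomial.pow_rootMultiplicity_dvd _ _)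
  intro d
  rw [← ofCoeffs_coeff p0 d, hzero, Polynomial.coeff_zero]

/-- (D2) One of the directions `(1, s, s², …)` separates the points. -/
theorem exists_dir (j q S : ℕ) (hS : j * j * q < S) (y : Fin j → Fin q → ℝ)
    (hy : Function.Injective y) :
    ∃ s < S, Function.Injective fun i => ∑ b : Fin q, (s : ℝ) ^ (b : ℕ) * y i b := by
  classical
  by_contra hcon
  push Not at hcon
  let bad : Fin j × Fin j → Finset ℕ := fun p =>
    (Finset.range S).filter fun s => p.1 ≠ p.2 ∧
      ∑ b : Fin q, (s : ℝ) ^ (b : ℕ) * y p.1 b = ∑ b : Fin q, (s : ℝ) ^ (b : ℕ) * y p.2 b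
  have hcov : Finset.range S ⊆ Finset.univ.biUnion bad := by
    intro s hs
    have h3 := hcon s (Finset.mem_range.1 hs)
    unfold Function.Injective at h3
    push Not at h3
    obtain ⟨a, b, hab, hne⟩ := h3
    exact Finset.mem_biUnion.2 ⟨(a, b), Finset.mem_univ _, Finset.mem_filter.2 ⟨hs, hne, hab⟩⟩
  have hbad : ∀ p ∈ (Finset.univ : Finset (Fin j × Fin j)), (bad p).card ≤ q := by
    rintro ⟨a, b⟩ _
    by_cases hab : a = b
    · have : bad (a, b) = ∅ := by
        apply Finset.filter_eq_empty_iff.2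
        rintro s _ ⟨h, _⟩
        exact h hab
      rw [this, Finset.card_empty]; exact Nat.zero_le _
    set P : Polynomial ℝ := ofCoeffs fun c => y a c - y b c with hPdef
    have hP : P ≠ 0 := by
      intro h
      apply hab
      apply hy
      funext c
      have h3 : (ofCoeffs fun c => y a c - y b c).coeff c = y a c - y b c := ofCoeffs_coeff _ c
      rw [← hPdef, h, Polynomial.coeff_zero] at h3
      linarith
    have hroots : ((bad (a, b)).map Nat.castEmbedding) ⊆ P.roots.toFinset := by
      intro x hx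
      rw [Finset.mem_map] at hx
      obtain ⟨s, hs, rfl⟩ := hx
      rw [Multiset.mem_toFinset, Polynomial.mem_roots hP, Polynomial.IsRoot.def, ofCoeffs_eval]
      have h3 := (Finset.mem_filter.1 hs).2.2
      simp only at h3
      have h4 : ∑ c : Fin q, (y a c - y b c) * (s : ℝ) ^ (c : ℕ) =
          ∑ c : Fin q, (s : ℝ) ^ (c : ℕ) * y a c - ∑ c : Fin q, (s : ℝ) ^ (c : ℕ) * y b c := by
        rw [← Finset.sum_sub_distrib]
        exact Finset.sum_congr rfl fun c _ => by ring
      exact h4.trans (sub_eq_zero.2 h3)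
    have h5 : (bad (a, b)).card ≤ P.natDegree := by
      rw [← Finset.card_map (Nat.castEmbedding (R := ℝ))]
      exact (Finset.card_le_card hroots).trans
        ((Multiset.toFinset_card_le _).trans (Polynomial.card_roots' P))
    refine h5.trans ?_
    have := ofCoeffs_degree_lt (fun c => y a c - y b c)
    rw [← hPdef, Polynomial.degree_eq_natDegree hP] at this
    exact le_of_lt (by exact_mod_cast this)
  have h6 := (Finset.card_le_card hcov).trans (Finset.card_biUnion_le_card_mul _ _ _ hbad)
  rw [Finset.card_range, Finset.card_univ, Fintype.card_prod, Fintype.card_fin] at h6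
  omega

end Pool.Agent.T9h94.Iso
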