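import Pool.Agent.T9h94.Iso.Sys

/-!
# Existence of a solution of the critical system
-/

set_option autoImplicit false

namespace Pool.Agent.T9h94.Iso

open Finset Filter Topology Pool.Agent.NPC Pool.Agent.R537.RN

/-- Maximum of a minimum: existence of critical points, abstract form. -/
theorem exists_crit {n q : ℕ} (F : (Fin n → ℝ) → (Fin q → ℝ) → ℝ)
    (dX : Fin n → (Fin n → ℝ) → (Fin q → ℝ) → ℝ) (dY : ℕ → (Fin n → ℝ) → (Fin q → ℝ) → ℝ)
    (hF : Continuous fun p : (Fin n → ℝ) × (Fin q → ℝ) => F p.1 p.2)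
    (hdX : ∀ b, Continuous fun p : (Fin n → ℝ) × (Fin q → ℝ) => dX b p.1 p.2)
    (hD : ∀ (X U : Fin n → ℝ) (y W : Fin q → ℝ) (t : ℝ),
      HasDerivAt (fun t : ℝ => F (X + t • U) (y + t • W))
        (∑ b, dX b (X + t • U) (y + t • W) * U b +
          ∑ a : Fin q, dY a (X + t • U) (y + t • W) * W a) t)
    (R : ℝ) (hRpos : 0 < R) (ys : Fin q → ℝ) (hys : ‖ys‖ ≤ R)
    (X₀ : Fin n → ℝ) (hX₀ : ∀ b, |X₀ b| ≤ 2) (hstar : ∀ y, 1 / 4 ≤ F X₀ y)
    (htest : ∀ X : Fin n → ℝ, (∀ b, |X b| ≤ 2) → F X ys ≤ 1 + 5 / 32 - ∑ b, X b ^ 2)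
    (hfar : ∀ X : Fin n → ℝ, (∀ b, |X b| ≤ 2) → ∀ y, R ≤ ‖y‖ → 2 ≤ F X y) :
    ∃ j ≤ n, ∃ (X : Fin n → ℝ) (v : ℝ) (y : Fin (j + 1) → Fin q → ℝ) (w : Fin (j + 1) → ℝ),
      ∑ i, w i = 1 ∧ (∀ i, F X (y i) = v) ∧ (∀ i, ∀ a < q, dY a X (y i) = 0) ∧
      (∀ b, ∑ i, w i * dX b X (y i) = 0) ∧ Function.Injective y ∧ (∀ b, X b ^ 2 < 4) ∧
      (∀ b, |X b| ≤ 2) ∧ ∀ z, ‖z‖ ≤ R → 1 / 4 ≤ F X z := by
  obtain ⟨K, hK⟩ : ∃ K : Set (Fin q → ℝ), K = Metric.closedBall 0 R := ⟨_, rfl⟩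
  have hKc : IsCompact K := by rw [hK]; exact isCompact_closedBall _ _
  have hmemK : ∀ y : Fin q → ℝ, ‖y‖ ≤ R → y ∈ K := fun y hy => by
    rw [hK, mem_closedBall_zero_iff]; exact hy
  have hysK : ys ∈ K := hmemK _ hys
  have hKne : K.Nonempty := ⟨_, hysK⟩
  obtain ⟨mm, hmm⟩ : ∃ mm : (Fin n → ℝ) → ℝ, mm = fun X => sInf ((fun y => F X y) '' K) :=
    ⟨_, rfl⟩
  have hmmc : Continuous mm := by
    rw [hmm]
    exact IsCompact.continuous_sInf hKc hF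
  have hFy : ∀ X, Continuous fun y => F X y := fun X =>
    hF.comp (continuous_const.prodMk continuous_id)
  have hmin : ∀ X, ∃ y ∈ K, mm X = F X y ∧ ∀ y' ∈ K, mm X ≤ F X y' := by
    intro X
    obtain ⟨y, hy, h1, h2⟩ := hKc.exists_sInf_image_eq_and_le hKne (hFy X).continuousOn
    rw [hmm]
    exact ⟨y, hy, h1, fun y' hy' => h1.le.trans (h2 y' hy')⟩
  clear hmm
  have hQmem : ∀ X : Fin n → ℝ, X ∈ Set.Icc (fun _ : Fin n => (-2 : ℝ)) (fun _ => 2) ↔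
      ∀ b, |X b| ≤ 2 := by
    intro X
    rw [Set.mem_Icc, Pi.le_def, Pi.le_def, ← forall_and]
    exact forall_congr' fun b => abs_le.symm
  have hX₀Q := (hQmem X₀).2 hX₀
  obtain ⟨X₁, hX₁Q, hX₁max⟩ := (isCompact_Icc (a := fun _ : Fin n => (-2 : ℝ))
    (b := fun _ => 2)).exists_isMaxOn ⟨X₀, hX₀Q⟩ hmmc.continuousOn
  have hX₁2 := (hQmem X₁).1 hX₁Q
  obtain ⟨v, hv⟩ : ∃ v, v = mm X₁ := ⟨_, rfl⟩
  have hv4 : 1 / 4 ≤ v := by
    obtain ⟨y, -, h1, -⟩ := hmin X₀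
    have h2 : mm X₀ ≤ mm X₁ := hX₁max hX₀Q
    have h3 := hstar y
    linarith
  obtain ⟨-, -, -, hvle⟩ := hmin X₁
  rw [← hv] at hvle
  have hvtest : v ≤ 1 + 5 / 32 - ∑ b, X₁ b ^ 2 := (hvle _ hysK).trans (htest X₁ hX₁2)
  have hsumsq : 0 ≤ ∑ b, X₁ b ^ 2 := Finset.sum_nonneg fun _ _ => sq_nonneg _
  have hX₁lt : ∀ b, X₁ b ^ 2 < 4 := by
    intro b
    have h1 : X₁ b ^ 2 ≤ ∑ b, X₁ b ^ 2 :=
      Finset.single_le_sum (f := fun b => X₁ b ^ 2) (fun _ _ => sq_nonneg _) (mem_univ b)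
    linarith
  have hev2 : ∀ᶠ X in 𝓝 X₁, ∃ y ∈ K, F X y ≤ v := by
    have h1 : ∀ᶠ X in 𝓝 X₁, ∀ b, X b ∈ Set.Ioo (-2 : ℝ) 2 := by
      rw [Filter.eventually_all]
      intro b
      have h2 := hX₁lt b
      exact (continuous_apply b).continuousAt.eventually
        (Ioo_mem_nhds (by nlinarith) (by nlinarith))
    filter_upwards [h1] with X hX
    obtain ⟨y, hy, h2, -⟩ := hmin X
    refine ⟨y, hy, ?_⟩
    rw [← h2, hv]
    exact hX₁max ((hQmem X).2 fun b => abs_le.2 ⟨(hX b).1.le, (hX b).2.le⟩)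
  obtain ⟨j, y, w, hj, hyinj, hy, hw, hwsum, hgX⟩ := fritz_john F
    (fun X y b => dX b X y) hF hdX (by
      intro X y u t
      have h1 := hD X u y 0 t
      simpa using h1) K hKc X₁ v hvle hev2
  have hcrit : ∀ i, ∀ a < q, dY a X₁ (y i) = 0 := by
    intro i a ha
    have hyR : ‖y i‖ < R := by
      by_contra hcon
      have h1 := hfar X₁ hX₁2 (y i) (not_lt.1 hcon)
      have h2 : F X₁ (y i) = v := (hy i).2
      rw [h2] at h1
      linarith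
    have h1 := hD X₁ 0 (y i) (Pi.single ⟨a, ha⟩ 1) 0
    have h2 : IsLocalMin (fun t : ℝ => F (X₁ + t • 0)
        (y i + t • (Pi.single ⟨a, ha⟩ 1 : Fin q → ℝ))) 0 := by
      have h3 : Tendsto (fun t : ℝ => y i + t • (Pi.single ⟨a, ha⟩ 1 : Fin q → ℝ)) (𝓝 0)
          (𝓝 (y i)) := by
        have : Continuous fun t : ℝ => y i + t • (Pi.single ⟨a, ha⟩ 1 : Fin q → ℝ) := by
          fun_prop
        simpa using this.tendsto 0
      have h4 : ∀ᶠ z in 𝓝 (y i), z ∈ K := by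
        have : Metric.ball (0 : Fin q → ℝ) R ∈ 𝓝 (y i) :=
          Metric.isOpen_ball.mem_nhds (mem_ball_zero_iff.2 hyR)
        rw [hK]
        exact Filter.mem_of_superset this Metric.ball_subset_closedBall
      filter_upwards [h3.eventually h4] with t ht
      simp only [smul_zero, add_zero, zero_smul]
      have h5 : F X₁ (y i) = v := (hy i).2
      rw [h5]
      exact hvle _ ht
    have h5 := h2.hasDerivAt_eq_zero h1
    simp only [Pi.zero_apply, mul_zero, Finset.sum_const_zero, zero_add, zero_smul,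
      add_zero, smul_zero] at h5
    rw [Finset.sum_eq_single (⟨a, ha⟩ : Fin q)] at h5
    · simpa using h5
    · intro b _ hb
      rw [Pi.single_eq_of_ne hb, mul_zero]
    · intro h; exact absurd (mem_univ _) h
  exact ⟨j, hj, X₁, v, y, w, hwsum, fun i => (hy i).2, hcrit, hgX, hyinj, hX₁lt, hX₁2,
    fun z hz => hv4.trans (hvle _ (hmemK _ hz))⟩

namespace Dat

variable (G : Dat)

theorem one_le_κ : 1 ≤ G.κ := two_le_kp _ _

theorem q_eq : G.q = G.l + G.κ + 2 := rfl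

theorem F_eq (c : ℕ → ℝ) (X : Fin G.n → ℝ) (y : Fin G.q → ℝ) :
    G.F c X y = G.G2 X (ex y) 1 + G.β * ∑ a ∈ range G.q, ex y a ^ (2 * G.n + 4) -
      ∑ b, X b ^ 2 + (∑ b : Fin G.n, c b * X b +
        Pc G.q (G.n + 1) G.S0 (fun i => c (G.n + i)) (ex y)) := rfl

theorem pen_nonneg (l κ : ℕ) (y : ℕ → ℝ) (t : ℝ) : 0 ≤ pen l κ y t := by
  unfold pen
  positivity

theorem G2_ge (hC : 0 ≤ G.C) (hB : 0 ≤ G.B) (hD : 0 ≤ G.D) (X : Fin G.n → ℝ) (y : ℕ → ℝ) :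
    1 - G.C * hc G.l y G.κ ≤ G.G2 X y 1 := by
  unfold G2 Gt
  have h1 : 0 ≤ G.D * qsum (pick G.loc (fun j => y 0 * (G.D * X j)) (fun _ => 0)
      (fun j : Fin G.l => y (j + 1))) (y 0) G.S := mul_nonneg hD (qsum_nonneg _ _ _)
  have h2 : 0 ≤ G.B * pen G.l G.κ y 1 := mul_nonneg hB (pen_nonneg _ _ _ _)
  have h3 := mul_nonneg hC (add_nonneg h1 h2)
  nlinarith

/-- The test point. -/
noncomputable def ys : Fin G.q → ℝ := fun a => if (a : ℕ) = G.l + 1 then Real.sqrt G.q else 0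

theorem ex_ys (a : ℕ) : ex G.ys a = if a = G.l + 1 then Real.sqrt G.q else 0 := by
  unfold ex ys
  by_cases h : a < G.q
  · rw [dif_pos h]
  · rw [dif_neg h, if_neg]
    rintro rfl
    apply h
    rw [q_eq]
    omega

theorem G2_ys (X : Fin G.n → ℝ) : G.G2 X (ex G.ys) 1 = 1 := by
  have h0 : ex G.ys 0 = 0 := by rw [ex_ys, if_neg (by omega)]
  have hj : ∀ j : Fin G.l, ex G.ys (j + 1) = 0 := fun j => by
    rw [ex_ys, if_neg (by have := j.2; omega)]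
  have hh : ∀ j, hc G.l (ex G.ys) j = 0 := by
    intro j
    unfold hc
    split_ifs with h
    · exact h0
    · rw [ex_ys, if_neg (by omega)]
  have hsum : ∑ a ∈ range G.q, ex G.ys a ^ 2 = G.q := by
    rw [Finset.sum_eq_single (G.l + 1)]
    · rw [ex_ys, if_pos rfl, Real.sq_sqrt (Nat.cast_nonneg _)]
    · intro a _ ha
      rw [ex_ys, if_neg ha]; ring
    · intro h
      exact absurd (mem_range.2 (by rw [q_eq]; omega)) h
  have hq : qsum (pick G.loc (fun j => ex G.ys 0 * (G.D * X j)) (fun _ => 0)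
      (fun j : Fin G.l => ex G.ys (j + 1))) (ex G.ys 0) G.S = 0 := by
    have e1 : (pick G.loc (fun j => ex G.ys 0 * (G.D * X j)) (fun _ => 0)
        (fun j : Fin G.l => ex G.ys (j + 1))) = fun i => (0 : ℝ) * (0 : ℝ) := by
      funext i
      unfold pick
      rcases G.loc i with j | j | j
      · simp [h0]
      · simp
      · simp [hj]
    have e2 : ex G.ys 0 = (0 : ℝ) * 0 := by rw [h0, mul_zero]
    rw [e1]
    nth_rewrite 1 [e2]
    rw [qsum_scale]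
    ring
  have hpen : pen G.l G.κ (ex G.ys) 1 = 0 := by
    unfold pen
    have : (qd G.l G.κ) = G.q := rfl
    rw [this, hsum]
    simp [hh]
  unfold G2 Gt
  rw [hq, hpen, hh]
  ring

theorem q_pos : 3 ≤ G.q := by
  have := G.one_le_κ
  rw [q_eq]; omega

theorem one_le_q : (1 : ℝ) ≤ G.q := by
  have := G.q_pos
  exact_mod_cast (by omega : 1 ≤ G.q)

theorem zs_le (s : ℕ) (hs : s < G.S0) (y : ℕ → ℝ) (M : ℝ) (hM : 0 ≤ M)
    (hy : ∀ a < G.q, |y a| ≤ M) : |zs G.q s y| ≤ (G.q : ℝ) * (G.S0 : ℝ) ^ G.q * M := by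
  unfold zs
  have hS1 : (1 : ℝ) ≤ G.S0 := by exact_mod_cast (by omega : 1 ≤ G.S0)
  calc |∑ b ∈ range G.q, (s : ℝ) ^ b * y b| ≤ ∑ b ∈ range G.q, |(s : ℝ) ^ b * y b| :=
        Finset.abs_sum_le_sum_abs _ _
    _ ≤ ∑ _b ∈ range G.q, (G.S0 : ℝ) ^ G.q * M := by
        refine Finset.sum_le_sum fun b hb => ?_
        rw [abs_mul, abs_pow, Nat.abs_cast]
        have h1 : (s : ℝ) ^ b ≤ (G.S0 : ℝ) ^ G.q :=
          (pow_le_pow_left₀ (Nat.cast_nonneg _) (by exact_mod_cast hs.le) b).trans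
            (pow_le_pow_right₀ hS1 (mem_range.1 hb).le)
        exact mul_le_mul h1 (hy b (mem_range.1 hb)) (abs_nonneg _) (by positivity)
    _ = (G.q : ℝ) * (G.S0 : ℝ) ^ G.q * M := by
        rw [Finset.sum_const, card_range, nsmul_eq_mul]; ring

theorem L_pos (hS : 1 ≤ G.S0) : 0 < G.L := by
  unfold L
  have h1 := G.q_pos
  have : 0 < G.S0 * G.q * (2 * (G.n + 1)) := by positivity
  omega

theorem θ_nonneg (c : ℕ → ℝ) (hS : 1 ≤ G.S0) (θ : ℝ)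
    (hcc : ∀ k < G.L, |c k| * (G.L * ((G.q : ℝ) * (G.S0 : ℝ) ^ G.q + 1) ^ (2 * (G.n + 1))) ≤ θ) :
    0 ≤ θ := by
  refine le_trans ?_ (hcc 0 (G.L_pos hS))
  positivity

theorem pert_le (c : ℕ → ℝ) (hS : 1 ≤ G.S0) (θ : ℝ)
    (hcc : ∀ k < G.L, |c k| * (G.L * ((G.q : ℝ) * (G.S0 : ℝ) ^ G.q + 1) ^ (2 * (G.n + 1))) ≤ θ)
    (X : Fin G.n → ℝ) (m : ℝ) (hm : 0 ≤ m) (hX : ∀ b, |X b| ≤ m) (y : ℕ → ℝ) (M : ℝ)
    (hM : 1 ≤ M) (hy : ∀ a < G.q, |y a| ≤ M) :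
    |∑ b : Fin G.n, c b * X b + Pc G.q (G.n + 1) G.S0 (fun i => c (G.n + i)) y| ≤
      θ * (m + M ^ (2 * G.n + 2)) := by
  have hL : (0 : ℝ) < G.L := by exact_mod_cast G.L_pos hS
  have hθ := G.θ_nonneg c hS θ hcc
  set Z : ℝ := (G.q : ℝ) * (G.S0 : ℝ) ^ G.q with hZ
  have hZ0 : 0 ≤ Z := by positivity
  set P : ℝ := (Z + 1) ^ (2 * (G.n + 1)) with hP
  have hP1 : 1 ≤ P := one_le_pow₀ (by linarith)
  set τ : ℝ := θ / G.L with hτ
  have hτ0 : 0 ≤ τ := by positivity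
  have hcτ : ∀ k < G.L, |c k| * P ≤ τ := by
    intro k hk
    rw [hτ, le_div_iff₀ hL]
    have := hcc k hk
    linarith [this]
  have hcτ' : ∀ k < G.L, |c k| ≤ τ := by
    intro k hk
    refine le_trans ?_ (hcτ k hk)
    nlinarith [abs_nonneg (c k)]
  have hA : |∑ b : Fin G.n, c b * X b| ≤ G.n * τ * m := by
    calc |∑ b : Fin G.n, c b * X b| ≤ ∑ b : Fin G.n, |c b * X b| :=
          Finset.abs_sum_le_sum_abs _ _
      _ ≤ ∑ _b : Fin G.n, τ * m := by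
          refine Finset.sum_le_sum fun b _ => ?_
          rw [abs_mul]
          refine mul_le_mul (hcτ' b ?_) (hX b) (abs_nonneg _) hτ0
          have := b.2
          unfold L
          omega
      _ = G.n * τ * m := by
          rw [Finset.sum_const, card_univ, Fintype.card_fin, nsmul_eq_mul]; ring
  have hM0 : 0 ≤ M := by linarith
  have hterm : ∀ s ∈ range G.S0, ∀ a ∈ range G.q, ∀ d ∈ range (2 * (G.n + 1)),
      |c (G.n + ((s * G.q + a) * (2 * (G.n + 1)) + d)) * (mn a y * zs G.q s y ^ d)| ≤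
        τ * M ^ (2 * G.n + 2) := by
    intro s hs a ha d hd
    rw [mem_range] at hs ha hd
    have hidx : G.n + ((s * G.q + a) * (2 * (G.n + 1)) + d) < G.L := by
      unfold L
      have h1 : s * G.q + a + 1 ≤ G.S0 * G.q := by
        have : (s + 1) * G.q ≤ G.S0 * G.q := Nat.mul_le_mul_right _ hs
        nlinarith
      have h2 : (s * G.q + a + 1) * (2 * (G.n + 1)) ≤ G.S0 * G.q * (2 * (G.n + 1)) :=
        Nat.mul_le_mul_right _ h1
      nlinarith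
    have hmn : |mn a y| ≤ M := by
      unfold mn
      split_ifs
      · rw [abs_one]; exact hM
      · exact hy a ha
    have hz : |zs G.q s y| ≤ (Z + 1) * M := by
      refine (G.zs_le s hs y M hM0 hy).trans ?_
      rw [← hZ]
      nlinarith
    have hZM : 1 ≤ (Z + 1) * M := by nlinarith
    have hzd : |zs G.q s y| ^ d ≤ ((Z + 1) * M) ^ (2 * G.n + 1) :=
      (pow_le_pow_left₀ (abs_nonneg _) hz d).trans (pow_le_pow_right₀ hZM (by omega))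
    have hprod : |mn a y * zs G.q s y ^ d| ≤ P * M ^ (2 * G.n + 2) := by
      rw [abs_mul, abs_pow]
      calc |mn a y| * |zs G.q s y| ^ d ≤ ((Z + 1) * M) * ((Z + 1) * M) ^ (2 * G.n + 1) := by
            refine mul_le_mul (hmn.trans ?_) hzd (by positivity) (by positivity)
            nlinarith
        _ = P * M ^ (2 * G.n + 2) := by
            rw [hP, ← pow_succ', mul_pow]
            congr 2
    rw [abs_mul]
    calc |c (G.n + ((s * G.q + a) * (2 * (G.n + 1)) + d))| * |mn a y * zs G.q s y ^ d| ≤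
          |c (G.n + ((s * G.q + a) * (2 * (G.n + 1)) + d))| * (P * M ^ (2 * G.n + 2)) :=
          mul_le_mul_of_nonneg_left hprod (abs_nonneg _)
      _ = (|c (G.n + ((s * G.q + a) * (2 * (G.n + 1)) + d))| * P) * M ^ (2 * G.n + 2) := by ring
      _ ≤ τ * M ^ (2 * G.n + 2) :=
          mul_le_mul_of_nonneg_right (hcτ _ hidx) (by positivity)
  have hB : |Pc G.q (G.n + 1) G.S0 (fun i => c (G.n + i)) y| ≤
      (G.S0 * G.q * (2 * (G.n + 1)) : ℕ) * (τ * M ^ (2 * G.n + 2)) := by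
    unfold Pc
    calc _ ≤ ∑ s ∈ range G.S0, |∑ a ∈ range G.q, ∑ d ∈ range (2 * (G.n + 1)),
          c (G.n + ((s * G.q + a) * (2 * (G.n + 1)) + d)) * (mn a y * zs G.q s y ^ d)| :=
          Finset.abs_sum_le_sum_abs _ _
      _ ≤ ∑ _s ∈ range G.S0, (G.q * ((2 * (G.n + 1) : ℕ) * (τ * M ^ (2 * G.n + 2)))) := by
          refine Finset.sum_le_sum fun s hs => ?_
          calc _ ≤ ∑ a ∈ range G.q, |∑ d ∈ range (2 * (G.n + 1)),
                c (G.n + ((s * G.q + a) * (2 * (G.n + 1)) + d)) * (mn a y * zs G.q s y ^ d)| :=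
                Finset.abs_sum_le_sum_abs _ _
            _ ≤ ∑ _a ∈ range G.q, ((2 * (G.n + 1) : ℕ) * (τ * M ^ (2 * G.n + 2))) := by
                refine Finset.sum_le_sum fun a ha => ?_
                calc _ ≤ ∑ d ∈ range (2 * (G.n + 1)),
                      |c (G.n + ((s * G.q + a) * (2 * (G.n + 1)) + d)) *
                        (mn a y * zs G.q s y ^ d)| := Finset.abs_sum_le_sum_abs _ _
                  _ ≤ ∑ _d ∈ range (2 * (G.n + 1)), τ * M ^ (2 * G.n + 2) :=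
                      Finset.sum_le_sum fun d hd => hterm s hs a ha d hd
                  _ = _ := by rw [Finset.sum_const, card_range, nsmul_eq_mul]
            _ = _ := by rw [Finset.sum_const, card_range, nsmul_eq_mul]
      _ = _ := by
          rw [Finset.sum_const, card_range, nsmul_eq_mul]
          push_cast
          ring
  have hLe : (G.L : ℝ) = G.n + (G.S0 * G.q * (2 * (G.n + 1)) : ℕ) := by
    unfold L
    push_cast
    ring
  have hθL : θ = G.L * τ := by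
    rw [hτ]; field_simp
  refine (abs_add_le _ _).trans ((add_le_add hA hB).trans ?_)
  rw [hθL, hLe]
  have h1 : 0 ≤ ((G.S0 * G.q * (2 * (G.n + 1)) : ℕ) : ℝ) * τ * m := by positivity
  have h2 : 0 ≤ (G.n : ℝ) * τ * M ^ (2 * G.n + 2) := by positivity
  nlinarith

theorem abs_ex_le {q : ℕ} (y : Fin q → ℝ) (a : ℕ) : |ex y a| ≤ ‖y‖ := by
  unfold ex
  split_ifs with h
  · rw [← Real.norm_eq_abs]; exact norm_le_pi_norm y ⟨a, h⟩
  · rw [abs_zero]; exact norm_nonneg _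

theorem norm_pow_le (k : ℕ) (y : Fin G.q → ℝ) :
    ‖y‖ ^ (2 * k) ≤ ∑ a ∈ range G.q, ex y a ^ (2 * k) := by
  have : Nonempty (Fin G.q) := ⟨⟨0, by have := G.q_pos; omega⟩⟩
  obtain ⟨a0, ha0⟩ := Finite.exists_max fun a => |y a|
  have h1 : ‖y‖ = |y a0| := by
    apply le_antisymm
    · rw [pi_norm_le_iff_of_nonneg (abs_nonneg _)]
      intro a
      rw [Real.norm_eq_abs]; exact ha0 a
    · rw [← Real.norm_eq_abs]; exact norm_le_pi_norm y a0
  have h2 : ‖y‖ ^ (2 * k) = ex y a0 ^ (2 * k) := by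
    rw [h1, pow_mul, sq_abs, ← pow_mul]
    unfold ex
    rw [dif_pos a0.2]
  rw [h2]
  refine Finset.single_le_sum (f := fun a => ex y a ^ (2 * k)) (fun a _ => ?_)
    (mem_range.2 a0.2)
  rw [pow_mul]; positivity

theorem sqrt_pow2 : Real.sqrt G.q ^ (2 * G.n + 2) = (G.q : ℝ) ^ (G.n + 1) := by
  have hsq : Real.sqrt G.q ^ 2 = G.q := Real.sq_sqrt (by linarith [G.one_le_q])
  rw [show 2 * G.n + 2 = 2 * (G.n + 1) by ring, pow_mul, hsq]

theorem sqrt_pow4 : Real.sqrt G.q ^ (2 * G.n + 4) = (G.q : ℝ) ^ (G.n + 2) := by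
  have hsq : Real.sqrt G.q ^ 2 = G.q := Real.sq_sqrt (by linarith [G.one_le_q])
  rw [show 2 * G.n + 4 = 2 * (G.n + 2) by ring, pow_mul, hsq]

theorem one_le_sqrt : 1 ≤ Real.sqrt G.q := by rw [Real.one_le_sqrt]; exact G.one_le_q

theorem ev_nonneg (y : ℕ → ℝ) : 0 ≤ ∑ a ∈ range G.q, y a ^ (2 * G.n + 4) :=
  Finset.sum_nonneg fun a _ => by
    rw [show 2 * G.n + 4 = 2 * (G.n + 2) by ring, pow_mul]; positivity

theorem norm_pow_le' (y : Fin G.q → ℝ) :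
    ‖y‖ ^ (2 * G.n + 4) ≤ ∑ a ∈ range G.q, ex y a ^ (2 * G.n + 4) := by
  have := G.norm_pow_le (G.n + 2) y
  rwa [show 2 * (G.n + 2) = 2 * G.n + 4 by ring] at this

/-- The hypotheses on the constants. -/
structure Hyp (c : ℕ → ℝ) (θ : ℝ) : Prop where
  C : 0 ≤ G.C
  B : 0 ≤ G.B
  D : 0 ≤ G.D
  S : 1 ≤ G.S0
  β : 0 < G.β
  βq : G.β * (G.q * (G.q : ℝ) ^ (G.n + 2)) ≤ 1 / 16
  θβ : θ ≤ G.β
  θ64 : θ ≤ 1 / 64
  cc : ∀ k < G.L, |c k| * (G.L * ((G.q : ℝ) * (G.S0 : ℝ) ^ G.q + 1) ^ (2 * (G.n + 1))) ≤ θ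

variable {G} {c : ℕ → ℝ} {θ : ℝ}

theorem Hyp.θ0 (H : G.Hyp c θ) : 0 ≤ θ := G.θ_nonneg c H.S θ H.cc

theorem Hyp.β1 (H : G.Hyp c θ) : G.β * (G.q : ℝ) ^ (G.n + 1) ≤ 1 / 16 := by
  refine (mul_le_mul_of_nonneg_left ?_ H.β.le).trans H.βq
  rw [← pow_succ']
  exact pow_le_pow_right₀ G.one_le_q (by omega)

theorem Hyp.β2 (H : G.Hyp c θ) : G.β * (G.q : ℝ) ^ (G.n + 2) ≤ 1 / 16 := by
  refine (mul_le_mul_of_nonneg_left ?_ H.β.le).trans H.βq
  rw [← pow_succ']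
  exact pow_le_pow_right₀ G.one_le_q (by omega)

theorem Hyp.θ1 (H : G.Hyp c θ) : θ * (G.q : ℝ) ^ (G.n + 1) ≤ 1 / 16 :=
  (mul_le_mul_of_nonneg_right H.θβ (by positivity)).trans H.β1

/-- At the given point. -/
theorem star_le (H : G.Hyp c θ) (X₀ : Fin G.n → ℝ) (hX₀ : ∑ b, X₀ b ^ 2 ≤ 1 / 64)
    (hX8 : ∀ b, |X₀ b| ≤ 1 / 8)
    (hG : ∀ y : ℕ → ℝ, 1 / 2 ≤ G.G2 X₀ y 1) (y : Fin G.q → ℝ) : 1 / 4 ≤ G.F c X₀ y := by
  rw [F_eq]
  have h1 := hG (ex y)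
  have hM : 1 ≤ max 1 ‖y‖ := le_max_left _ _
  have h2 := G.pert_le c H.S θ H.cc X₀ (1 / 8) (by norm_num) hX8 (ex y) (max 1 ‖y‖) hM
    (fun a _ => (abs_ex_le y a).trans (le_max_right _ _))
  have h3 := G.norm_pow_le' y
  have hθ0 := H.θ0
  have hβ := H.β
  have h64 := H.θ64
  have hev := G.ev_nonneg (ex y)
  have h4 : θ * (max 1 ‖y‖) ^ (2 * G.n + 2) ≤
      1 / 64 + G.β * ∑ a ∈ range G.q, ex y a ^ (2 * G.n + 4) := by
    rcases le_total ‖y‖ 1 with hy | hy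
    · rw [max_eq_left hy, one_pow, mul_one]
      have := mul_nonneg hβ.le hev
      linarith
    · rw [max_eq_right hy]
      have h5 : ‖y‖ ^ (2 * G.n + 2) ≤ ‖y‖ ^ (2 * G.n + 4) := pow_le_pow_right₀ hy (by omega)
      have h6 : θ * ‖y‖ ^ (2 * G.n + 2) ≤ G.β * ‖y‖ ^ (2 * G.n + 4) :=
        mul_le_mul H.θβ h5 (by positivity) hβ.le
      have h7 := mul_le_mul_of_nonneg_left h3 hβ.le
      linarith
  have h5 := (abs_le.1 h2).1
  have h6 : θ * (1 / 8 + (max 1 ‖y‖) ^ (2 * G.n + 2)) =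
    θ * (1 / 8) + θ * (max 1 ‖y‖) ^ (2 * G.n + 2) := by ring
  rw [h6] at h5
  have h7 : θ * (1 / 8) ≤ 1 / 64 * (1 / 8) := mul_le_mul_of_nonneg_right h64 (by norm_num)
  linarith

/-- At the test point. -/
theorem test_le (H : G.Hyp c θ) (X : Fin G.n → ℝ) (hX : ∀ b, |X b| ≤ 2) :
    G.F c X G.ys ≤ 1 + 5 / 32 - ∑ b, X b ^ 2 := by
  rw [F_eq, G2_ys]
  have hθ0 := H.θ0
  have h64 := H.θ64
  have h2 := G.pert_le c H.S θ H.cc X 2 (by norm_num) hX (ex G.ys) (Real.sqrt G.q) G.one_le_sqrt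
    (fun a _ => by
      rw [ex_ys]
      split_ifs
      · rw [abs_of_nonneg (Real.sqrt_nonneg _)]
      · rw [abs_zero]; positivity)
  rw [G.sqrt_pow2] at h2
  have h3 : ∑ a ∈ range G.q, ex G.ys a ^ (2 * G.n + 4) = (G.q : ℝ) ^ (G.n + 2) := by
    rw [Finset.sum_eq_single (G.l + 1)]
    · rw [ex_ys, if_pos rfl, G.sqrt_pow4]
    · intro a _ ha
      rw [ex_ys, if_neg ha, zero_pow (by omega)]
    · intro h
      exact absurd (mem_range.2 (by rw [q_eq]; omega)) h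
  rw [h3]
  have h5 := (abs_le.1 h2).2
  have h6 : θ * (2 + (G.q : ℝ) ^ (G.n + 1)) = 2 * θ + θ * (G.q : ℝ) ^ (G.n + 1) := by ring
  rw [h6] at h5
  have h7 := H.θ1
  have h8 := H.β2
  linarith

theorem hc_le (y : Fin G.q → ℝ) (κ : ℕ) : hc G.l (ex y) κ ≤ ‖y‖ := by
  unfold hc
  split_ifs
  · exact (le_abs_self _).trans (abs_ex_le y _)
  · exact (le_abs_self _).trans (abs_ex_le y _)

/-- An inequality between numbers. -/
theorem num_far (C N β θ r A A2 : ℝ) (hN : 0 ≤ N) (hβ : 0 < β) (hC : 0 ≤ C) (hθβ : θ ≤ β)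
    (hr : 2 ≤ r) (h12 : 2 * (C + N) ≤ β * r) (hA : 1 ≤ A) (hA2 : A2 = A * r ^ 2) :
    C * r + N + θ * A ≤ β * A2 := by
  have h8 : θ * A ≤ β * A := mul_le_mul_of_nonneg_right hθβ (by linarith)
  have h11 : β * (r ^ 2 - 1) ≤ β * (A * (r ^ 2 - 1)) := by
    apply mul_le_mul_of_nonneg_left _ hβ.le
    have : 0 ≤ r ^ 2 - 1 := by nlinarith
    nlinarith
  have h13 : (C + N) * r ≤ β * (r ^ 2 - 1) := by
    have a1 : r ^ 2 / 2 ≤ r ^ 2 - 1 := by nlinarith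
    have a2 := mul_le_mul_of_nonneg_left a1 hβ.le
    have a3 := mul_le_mul_of_nonneg_right h12 (by linarith : (0 : ℝ) ≤ r)
    have a4 : β * r * r = 2 * (β * (r ^ 2 / 2)) := by ring
    have a5 : 2 * (C + N) * r = 2 * ((C + N) * r) := by ring
    linarith
  have h14 : N ≤ N * r := by nlinarith
  have h15 : β * (A * (r ^ 2 - 1)) = β * A2 - β * A := by rw [hA2]; ring
  have h16 : (C + N) * r = C * r + N * r := by ring
  linarith

/-- Far away. -/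
theorem far_le (H : G.Hyp c θ) (X : Fin G.n → ℝ) (hX : ∀ b, |X b| ≤ 2) (y : Fin G.q → ℝ)
    (hy : 2 * (G.C + (4 * G.n + 2)) / G.β + 2 ≤ ‖y‖) : 2 ≤ G.F c X y := by
  have hn0 : (0 : ℝ) ≤ G.n := Nat.cast_nonneg _
  have hβ := H.β
  have hC := H.C
  have hR0 : 0 ≤ 2 * (G.C + (4 * G.n + 2)) / G.β := by positivity
  rw [F_eq]
  have hr2 : 2 ≤ ‖y‖ := by linarith
  have hr1 : 1 ≤ ‖y‖ := by linarith
  have h1 := G.G2_ge H.C H.B H.D X (ex y)
  have hhc := hc_le y G.κ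
  have h2 := G.pert_le c H.S θ H.cc X 2 (by norm_num) hX (ex y) ‖y‖ hr1
    (fun a _ => abs_ex_le y a)
  have h3 := G.norm_pow_le' y
  have h4 : ∑ b, X b ^ 2 ≤ 4 * G.n := by
    calc ∑ b, X b ^ 2 ≤ ∑ _b : Fin G.n, (4 : ℝ) := Finset.sum_le_sum fun b _ => by
          have := abs_le.1 (hX b)
          nlinarith
      _ = 4 * G.n := by rw [Finset.sum_const, card_univ, Fintype.card_fin, nsmul_eq_mul]; ring
  have h5 := (abs_le.1 h2).1
  have h6 := mul_le_mul_of_nonneg_left h3 hβ.le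
  have h7 := mul_le_mul_of_nonneg_left hhc hC
  have h9 : 1 ≤ ‖y‖ ^ (2 * G.n + 2) := one_le_pow₀ hr1
  have h10 : ‖y‖ ^ (2 * G.n + 4) = ‖y‖ ^ (2 * G.n + 2) * ‖y‖ ^ 2 := by
    rw [← pow_add]
  have h12 : 2 * (G.C + (4 * G.n + 2)) ≤ G.β * ‖y‖ := by
    have : 2 * (G.C + (4 * G.n + 2)) / G.β ≤ ‖y‖ := by linarith
    rw [div_le_iff₀ hβ] at this
    linarith
  have h16 := num_far G.C (4 * G.n + 2) G.β θ ‖y‖ _ _ (by positivity) hβ hC H.θβ hr2 h12 h9 h10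
  have h17 : θ * (2 + ‖y‖ ^ (2 * G.n + 2)) = 2 * θ + θ * ‖y‖ ^ (2 * G.n + 2) := by ring
  rw [h17] at h5
  have h64 := H.θ64
  linarith

/-- Positivity of the main polynomial. -/
theorem pos_aux (H : G.Hyp c θ) (X : Fin G.n → ℝ) (hX : ∀ b, |X b| ≤ 2) (z : ℕ → ℝ)
    (hz : ∀ a < G.q, z a ^ 2 ≤ G.q) (h : 1 / 4 ≤ G.F c X (fun a => z a)) :
    0 < G.G2 X z 1 := by
  have hzb : ∀ a < G.q, |z a| ≤ Real.sqrt G.q := fun a ha => Real.abs_le_sqrt (hz a ha)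
  have hexz : ∀ a < G.q, ex (fun a : Fin G.q => z a) a = z a := fun a ha => by
    unfold ex; rw [dif_pos ha]
  have h1 : G.G2 X z 1 = G.G2 X (ex fun a : Fin G.q => z a) 1 :=
    Gt_congr G.loc G.S G.κ G.D G.C G.B X z _ 1 fun a ha => (hexz a ha).symm
  rw [h1]
  rw [F_eq] at h
  have h3 := G.pert_le c H.S θ H.cc X 2 (by norm_num) hX (ex fun a : Fin G.q => z a)
    (Real.sqrt G.q) G.one_le_sqrt (fun a ha => by rw [hexz a ha]; exact hzb a ha)
  rw [G.sqrt_pow2] at h3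
  have h4 : ∑ a ∈ range G.q, ex (fun a : Fin G.q => z a) a ^ (2 * G.n + 4) ≤
      G.q * (G.q : ℝ) ^ (G.n + 2) := by
    calc _ ≤ ∑ _a ∈ range G.q, (G.q : ℝ) ^ (G.n + 2) := Finset.sum_le_sum fun a ha => by
          rw [hexz a (mem_range.1 ha), show 2 * G.n + 4 = 2 * (G.n + 2) by ring, pow_mul]
          exact pow_le_pow_left₀ (sq_nonneg _) (hz a (mem_range.1 ha)) _
      _ = _ := by rw [Finset.sum_const, card_range, nsmul_eq_mul]
  have h5 := mul_le_mul_of_nonneg_left h4 H.β.le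
  have h6 := (abs_le.1 h3).2
  have h7 : θ * (2 + (G.q : ℝ) ^ (G.n + 1)) = 2 * θ + θ * (G.q : ℝ) ^ (G.n + 1) := by ring
  rw [h7] at h6
  have h8 := H.θ1
  have h9 := H.θ64
  have h10 := H.βq
  have h11 : 0 ≤ ∑ b, X b ^ 2 := Finset.sum_nonneg fun _ _ => sq_nonneg _
  linarith

/-- (P3) -/
theorem sol (hDeriv : StmtDeriv) (hCont : StmtCont) : StmtSol := by
  intro G c X₀ hX₀ hC hB hD hS hG hβ hβq θ hθβ hθ64 hcc
  have H : G.Hyp c θ := ⟨hC, hB, hD, hS, hβ, hβq, hθβ, hθ64, hcc⟩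
  have hX8 : ∀ b, |X₀ b| ≤ 1 / 8 := by
    intro b
    have h1 : X₀ b ^ 2 ≤ ∑ b, X₀ b ^ 2 :=
      Finset.single_le_sum (f := fun b => X₀ b ^ 2) (fun _ _ => sq_nonneg _) (mem_univ b)
    rw [abs_le]
    constructor <;> nlinarith
  have hq1 := G.one_le_q
  have hR0 : 0 ≤ 2 * (G.C + (4 * G.n + 2)) / G.β := by positivity
  obtain ⟨R, hR⟩ : ∃ R : ℝ, R = 2 * (G.C + (4 * G.n + 2)) / G.β + 2 + G.q := ⟨_, rfl⟩
  have hRpos : 0 < R := by linarith
  have hsR : Real.sqrt G.q ≤ R := by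
    have h0 := G.one_le_sqrt
    have h1 : Real.sqrt G.q ^ 2 = G.q := Real.sq_sqrt (by linarith)
    have : Real.sqrt G.q ≤ G.q := by nlinarith
    linarith
  have hys : ‖G.ys‖ ≤ R := by
    rw [pi_norm_le_iff_of_nonneg hRpos.le]
    intro a
    unfold ys
    split_ifs
    · rw [Real.norm_of_nonneg (Real.sqrt_nonneg _)]; exact hsR
    · rw [norm_zero]; exact hRpos.le
  obtain ⟨j, hj, X, v, y, w, h1, h2, h3, h4, h5, h6, h7, h8⟩ :=
    exists_crit (G.F c) (G.dX c) (G.dY c) (hCont G c).1 (hCont G c).2.1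
      (fun X U y W t => hDeriv G c X U y W t) R hRpos G.ys hys X₀
      (fun b => (hX8 b).trans (by norm_num)) (star_le H X₀ hX₀ hX8 hG) (test_le H)
      (fun X hX y hy => far_le H X hX y (by linarith))
  refine ⟨j, hj, X, v, y, w, ⟨h1, h2, h3, h4⟩, h5, h6, fun z hz =>
    pos_aux H X h7 z hz (h8 _ ?_)⟩
  rw [pi_norm_le_iff_of_nonneg hRpos.le]
  intro a
  rw [Real.norm_eq_abs]
  exact (Real.abs_le_sqrt (hz a a.2)).trans hsR

end Dat

end Pool.Agent.T9h94.Iso
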